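import Mathlib

set_option autoImplicit false

/-!
# One-sided random context grammars and recursively enumerable languages
-/

namespace Pool.Agent.Q230.KM

open Relation

/-- A rule `(A → x, U, W)` of a (one-sided) random context grammar with terminals `T` and
nonterminals `N`. -/
abbrev Rule (T N : Type) : Type := N × List (Symbol T N) × Finset N × Finset N

/-- A one-sided random context grammar `(N, T, P_L, P_R, S)`. Rules with an empty right hand side are
allowed. The alphabets `N` and `T` are disjoint because the strings are lists over `Symbol T N`. -/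
structure OSRC (T : Type) : Type 1 where
  N : Type
  finN : Finite N
  PL : Finset (Rule T N)
  PR : Finset (Rule T N)
  S : N

/-- `u A v ⇒ u x v`: either by a rule `(A → x, U, W) ∈ P_L` such that all elements of `U` and no
element of `W` occur in `u`, or by a rule `(A → x, U, W) ∈ P_R` such that all elements of `U` and no
element of `W` occur in `v`. -/
def OSRC.Step {T : Type} (G : OSRC T) (α β : List (Symbol T G.N)) : Prop :=
  ∃ (u v : List (Symbol T G.N)) (A : G.N) (x : List (Symbol T G.N)) (U W : Finset G.N),
    α = u ++ [Symbol.nonterminal A] ++ v ∧ β = u ++ x ++ v ∧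
    (((A, x, U, W) ∈ G.PL ∧ (∀ B ∈ U, Symbol.nonterminal B ∈ u) ∧
        (∀ B ∈ W, Symbol.nonterminal B ∉ u)) ∨
     ((A, x, U, W) ∈ G.PR ∧ (∀ B ∈ U, Symbol.nonterminal B ∈ v) ∧
        (∀ B ∈ W, Symbol.nonterminal B ∉ v)))

/-- the generated language -/
def OSRC.Lang {T : Type} (G : OSRC T) : Set (List T) :=
  {w | ReflTransGen G.Step [Symbol.nonterminal G.S] (w.map Symbol.terminal)}

/-- one step of the phrase structure grammar (type 0, unrestricted grammar) with the rules `P` -/
def Step0 {T N : Type} (P : List (List (Symbol T N) × List (Symbol T N)))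
    (s t : List (Symbol T N)) : Prop :=
  ∃ r ∈ P, ∃ p q, s = p ++ r.1 ++ q ∧ t = p ++ r.2 ++ q

/-- Recursively enumerable languages: the languages generated by phrase structure grammars with
finitely many nonterminals and finitely many rules `u → v`, where `u` and `v` are arbitrary
strings. -/
def IsRE {T : Type} (L : Set (List T)) : Prop :=
  ∃ (N : Type) (_ : Finite N) (P : List (List (Symbol T N) × List (Symbol T N))) (S : N),
    ∀ w, w ∈ L ↔ ReflTransGen (Step0 P) [Symbol.nonterminal S] (w.map Symbol.terminal)

/-- Every recursively enumerable language (over every finite alphabet) is generated by a one-sided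
random context grammar with at most `k` right random context rules. -/
def Suffices (k : ℕ) : Prop :=
  ∀ (T : Type), Finite T → ∀ L : Set (List T), IsRE L → ∃ G : OSRC T, G.PR.card ≤ k ∧ G.Lang = L

/-! ### Queue machines -/

/-- A nondeterministic queue machine: the transition `i` leads from the state `src i` to the state
`dst i`; it removes the symbol `X` from the head of the queue if `pop i = some X`, and appends the
word `push i` at the end. -/
structure QM (Γ : Type) where
  K : Type
  I : Type
  src : I → K
  pop : I → Option Γ
  push : I → List Γ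
  dst : I → K
  k0 : K
  kf : K

/-- one step of the queue machine -/
def QM.Step {Γ : Type} (M : QM Γ) (a b : M.K × List Γ) : Prop :=
  ∃ i, a.1 = M.src i ∧ b.1 = M.dst i ∧
    ((M.pop i = none ∧ b.2 = a.2 ++ M.push i) ∨
      ∃ X q, M.pop i = some X ∧ a.2 = X :: q ∧ b.2 = q ++ M.push i)

/-- words `w` such that the machine gets from `(k0, w^R e)` to `(kf, ε)` -/
def QM.Acc {Γ T : Type} (M : QM Γ) (inp : T → Γ) (e : List Γ) (w : List T) : Prop :=
  ReflTransGen M.Step (M.k0, (w.map inp).reverse ++ e) (M.kf, [])

end Pool.Agent.Q230.KM
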