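import Pool.Agent.Q230.KM.Defs

set_option autoImplicit false

/-!
# A queue machine for a phrase structure grammar
-/

namespace Pool.Agent.Q230.KM

open Relation

variable {T N : Type} (P : List (List (Symbol T N) × List (Symbol T N))) (S : N)

/-- queue symbols: `none` is the end marker -/
abbrev Gm (T N : Type) : Type := Option (Symbol T N)

/-- reversed word of queue symbols -/
def rv (s : List (Symbol T N)) : List (Gm T N) := s.reverse.map some

/-- the right hand side of a rule, reversed -/
def vr (r : Fin P.length) : List (Gm T N) := rv (P.get r).2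

/-- the left hand side of a rule, reversed -/
def ur (r : Fin P.length) : List (Gm T N) := rv (P.get r).1

/-- states -/
inductive KS
  | main | f1 | kf
  | pop (r : Fin P.length) (i : Fin ((vr P r).length + 1))

/-- transitions -/
inductive TI
  | rot (X : Gm T N)
  | enter (r : Fin P.length)
  | step (r : Fin P.length) (i : Fin (vr P r).length)
  | leave (r : Fin P.length)
  | fa | fb

/-- the queue machine -/
def qm : QM (Gm T N) where
  K := KS P
  I := TI P
  src := fun i => match i with
    | .rot _ => .main
    | .enter _ => .main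
    | .step r i => .pop r i.castSucc
    | .leave r => .pop r (Fin.last _)
    | .fa => .main
    | .fb => .f1
  pop := fun i => match i with
    | .rot X => some X
    | .enter _ => none
    | .step r i => some ((vr P r).get i)
    | .leave _ => none
    | .fa => some none
    | .fb => some (some (Symbol.nonterminal S))
  push := fun i => match i with
    | .rot X => [X]
    | .leave r => ur P r
    | _ => []
  dst := fun i => match i with
    | .rot _ => .main
    | .enter r => .pop r 0
    | .step r i => .pop r i.succ
    | .leave _ => .main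
    | .fa => .f1
    | .fb => .kf
  k0 := .main
  kf := .kf

theorem rot_step (X : Gm T N) (q : List (Gm T N)) :
    (qm P S).Step (KS.main, X :: q) (KS.main, q ++ [X]) :=
  ⟨TI.rot X, rfl, rfl, Or.inr ⟨X, q, rfl, rfl, rfl⟩⟩

theorem rot_steps (a : List (Gm T N)) : ∀ b : List (Gm T N),
    ReflTransGen (qm P S).Step (KS.main, a ++ b) (KS.main, b ++ a) := by
  induction a with
  | nil => intro b; rw [List.append_nil]; exact ReflTransGen.refl
  | cons X a ih =>
    intro b
    refine ReflTransGen.head (rot_step P S X (a ++ b)) ?_
    have := ih (b ++ [X])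
    simpa using this

theorem pop_steps (r : Fin P.length) (q : List (Gm T N)) : ∀ (j i : ℕ)
    (hi : i < (vr P r).length + 1), i + j = (vr P r).length →
    ReflTransGen (qm P S).Step (KS.pop r ⟨i, hi⟩, (vr P r).drop i ++ q)
      (KS.pop r (Fin.last _), q) := by
  intro j
  induction j with
  | zero =>
    intro i hi h
    have h' : i = (vr P r).length := by omega
    subst h'
    rw [List.drop_length]
    exact ReflTransGen.refl
  | succ j ih =>
    intro i hi h
    have hi' : i < (vr P r).length := by omega
    refine ReflTransGen.head ?_ (ih (i + 1) (by omega) (by omega))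
    refine ⟨TI.step r ⟨i, hi'⟩, rfl, rfl, Or.inr ⟨(vr P r).get ⟨i, hi'⟩,
      (vr P r).drop (i + 1) ++ q, rfl, ?_, (List.append_nil _).symm⟩⟩
    show (vr P r).drop i ++ q = (vr P r).get ⟨i, hi'⟩ :: ((vr P r).drop (i + 1) ++ q)
    rw [← List.cons_append]
    congr 1
    exact (List.getElem_cons_drop (h := hi')).symm

theorem app_steps (r : Fin P.length) (q : List (Gm T N)) :
    ReflTransGen (qm P S).Step (KS.main, vr P r ++ q) (KS.main, q ++ ur P r) := by
  have h1 : (qm P S).Step (KS.main, vr P r ++ q) (KS.pop r 0, vr P r ++ q) :=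
    ⟨TI.enter r, rfl, rfl, Or.inl ⟨rfl, (List.append_nil _).symm⟩⟩
  have h2 := pop_steps P S r q (vr P r).length 0 (Nat.succ_pos _) (by simp)
  have h3 : (qm P S).Step (KS.pop r (Fin.last _), q) (KS.main, q ++ ur P r) :=
    ⟨TI.leave r, rfl, rfl, Or.inl ⟨rfl, rfl⟩⟩
  exact (ReflTransGen.head h1 h2).tail h3

/-- the queue for a word -/
def qs (s : List (Symbol T N)) : List (Gm T N) := rv s ++ [none]

theorem rv_append (a b : List (Symbol T N)) : rv (a ++ b) = rv b ++ rv a := by
  simp [rv]

theorem sim0 {s t : List (Symbol T N)} (h : Step0 P s t) :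
    ReflTransGen (qm P S).Step (KS.main, qs t) (KS.main, qs s) := by
  obtain ⟨r, hr, p, q, rfl, rfl⟩ := h
  obtain ⟨j, hj⟩ := List.mem_iff_get.1 hr
  subst hj
  have e1 : qs (p ++ (P.get j).2 ++ q) = rv q ++ (vr P j ++ (rv p ++ [none])) := by
    simp [qs, rv_append, vr]
  have e2 : qs (p ++ (P.get j).1 ++ q) = (rv q ++ ur P j) ++ (rv p ++ [none]) := by
    simp [qs, rv_append, ur]
  rw [e1, e2]
  have h1 := rot_steps P S (rv q) (vr P j ++ (rv p ++ [none]))
  have h2 := app_steps P S j ((rv p ++ [none]) ++ rv q)
  have h3 := rot_steps P S (rv p ++ [none]) (rv q ++ ur P j)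
  rw [List.append_assoc] at h1
  rw [List.append_assoc (rv p ++ [none]) (rv q) (ur P j)] at h2
  exact (h1.trans h2).trans h3

theorem acc_of_derives {w : List T}
    (h : ReflTransGen (Step0 P) [Symbol.nonterminal S] (w.map Symbol.terminal)) :
    (qm P S).Acc (fun t => (some (Symbol.terminal t) : Gm T N)) [none] w := by
  have h1 : ∀ {s t : List (Symbol T N)}, ReflTransGen (Step0 P) s t →
      ReflTransGen (qm P S).Step (KS.main, qs t) (KS.main, qs s) := by
    intro s t hst
    induction hst with
    | refl => exact ReflTransGen.refl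
    | tail _ hs ih => exact (sim0 P S hs).trans ih
  have h2 := h1 h
  have e1 : (w.map fun t => (some (Symbol.terminal t) : Gm T N)).reverse ++ [none] =
      qs (w.map Symbol.terminal) := by
    simp [qs, rv, Function.comp_def]
  unfold QM.Acc
  rw [e1]
  have h3 := rot_steps P S [some (Symbol.nonterminal S)] [none]
  have h4 : (qm P S).Step (KS.main, [none, some (Symbol.nonterminal S)])
      (KS.f1, [some (Symbol.nonterminal S)]) :=
    ⟨TI.fa, rfl, rfl, Or.inr ⟨none, _, rfl, rfl, rfl⟩⟩
  have h5 : (qm P S).Step (KS.f1, [some (Symbol.nonterminal S)]) (KS.kf, []) :=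
    ⟨TI.fb, rfl, rfl, Or.inr ⟨_, [], rfl, rfl, rfl⟩⟩
  exact ((h2.trans h3).tail h4).tail h5

/-- the invariant -/
def InvQ (w : List T) : KS P × List (Gm T N) → Prop
  | (.main, q) => ∃ x y : List (Symbol T N), q = y.map some ++ none :: x.map some ∧
      ReflTransGen (Step0 P) (x ++ y).reverse (w.map Symbol.terminal)
  | (.pop r i, q) => ∃ x y : List (Symbol T N),
      (vr P r).take i ++ q = y.map some ++ none :: x.map some ∧
      ReflTransGen (Step0 P) (x ++ y).reverse (w.map Symbol.terminal)
  | (.f1, q) => ∃ x : List (Symbol T N), q = x.map some ∧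
      ReflTransGen (Step0 P) x.reverse (w.map Symbol.terminal)
  | (.kf, q) => ∃ x : List (Symbol T N), q = x.map some ∧
      ReflTransGen (Step0 P) (Symbol.nonterminal S :: x).reverse (w.map Symbol.terminal)

theorem invQ_step {w : List T} {a b : KS P × List (Gm T N)} (ha : InvQ P S w a)
    (h : (qm P S).Step a b) : InvQ P S w b := by
  obtain ⟨k, q⟩ := a
  obtain ⟨k', q'⟩ := b
  obtain ⟨i, h1, h2, h3⟩ := h
  dsimp only at h1 h2 h3
  cases i with
  | rot X =>
    have h1' : k = KS.main := h1
    have h2' : k' = KS.main := h2
    subst h1' h2'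
    obtain ⟨x, y, hq, hD⟩ := ha
    rcases h3 with ⟨h3, _⟩ | ⟨X', q1, h3, h4, h5⟩
    · cases h3
    have hX : X = X' := by
      have : some X = some X' := h3
      injection this
    subst hX
    have h5' : q' = q1 ++ [X] := h5
    subst h5'
    subst hq
    cases y with
    | nil =>
      simp only [List.map_nil, List.nil_append, List.cons.injEq] at h4
      obtain ⟨rfl, rfl⟩ := h4
      exact ⟨[], x, rfl, by simpa using hD⟩
    | cons c y =>
      simp only [List.map_cons, List.cons_append, List.cons.injEq] at h4
      obtain ⟨rfl, rfl⟩ := h4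
      exact ⟨x ++ [c], y, by simp, by simpa using hD⟩
  | enter r =>
    have h1' : k = KS.main := h1
    have h2' : k' = KS.pop r 0 := h2
    subst h1' h2'
    obtain ⟨x, y, hq, hD⟩ := ha
    rcases h3 with ⟨_, h4⟩ | ⟨X', q1, h3, _⟩
    swap
    · cases h3
    have h4' : q' = q ++ [] := h4
    subst h4'
    exact ⟨x, y, by simpa using hq, hD⟩
  | step r i =>
    have h1' : k = KS.pop r i.castSucc := h1
    have h2' : k' = KS.pop r i.succ := h2
    subst h1' h2'
    obtain ⟨x, y, hq, hD⟩ := ha
    rcases h3 with ⟨h3, _⟩ | ⟨X', q1, h3, h4, h5⟩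
    · cases h3
    have hX : (vr P r).get i = X' := by
      have : some ((vr P r).get i) = some X' := h3
      injection this
    subst hX
    have h5' : q' = q1 ++ [] := h5
    subst h5'
    subst h4
    refine ⟨x, y, ?_, hD⟩
    rw [← hq]
    simp only [Fin.val_castSucc, Fin.val_succ, List.append_nil]
    have h6 := List.take_succ_eq_append_getElem i.isLt
    rw [h6, List.append_assoc]
    rfl
  | leave r =>
    have h1' : k = KS.pop r (Fin.last _) := h1
    have h2' : k' = KS.main := h2
    subst h1' h2'
    obtain ⟨x, y, hq, hD⟩ := ha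
    rcases h3 with ⟨_, h4⟩ | ⟨X', q1, h3, _⟩
    swap
    · cases h3
    have h4' : q' = q ++ ur P r := h4
    subst h4'
    have hq' : vr P r ++ q = y.map some ++ none :: x.map some := by
      simpa using hq
    rcases List.append_eq_append_iff.1 hq' with ⟨c, hc1, hc2⟩ | ⟨c, hc1, hc2⟩
    · -- y.map some = vr ++ c
      unfold vr rv at hc1
      obtain ⟨y1, y2, rfl, hy1, hy2⟩ := List.map_eq_append_iff.1 hc1
      have hy1' : y1 = (P.get r).2.reverse :=
        (List.map_injective_iff.2 (Option.some_injective _)) hy1
      subst hy1' hy2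
      refine ⟨x ++ (P.get r).1.reverse, y2, ?_, ?_⟩
      · rw [hc2]
        simp [ur, rv]
      · refine ReflTransGen.head (b := (x ++ ((P.get r).2.reverse ++ y2)).reverse) ?_ hD
        refine ⟨P.get r, List.get_mem _ _, y2.reverse, x.reverse, ?_, ?_⟩ <;> simp
    · cases c with
      | nil =>
        simp only [List.append_nil] at hc1
        simp only [List.nil_append] at hc2
        unfold vr rv at hc1
        have hy : y = (P.get r).2.reverse :=
          (List.map_injective_iff.2 (Option.some_injective _)) hc1.symm
        subst hy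
        refine ⟨x ++ (P.get r).1.reverse, [], ?_, ?_⟩
        · rw [← hc2]
          simp [ur, rv]
        · refine ReflTransGen.head (b := (x ++ (P.get r).2.reverse).reverse) ?_ hD
          refine ⟨P.get r, List.get_mem _ _, [], x.reverse, ?_, ?_⟩ <;> simp
      | cons c0 c =>
        exfalso
        simp only [List.cons_append, List.cons.injEq] at hc2
        have : (none : Gm T N) ∈ vr P r := by rw [hc1, hc2.1]; simp
        simp [vr, rv] at this
  | fa =>
    have h1' : k = KS.main := h1
    have h2' : k' = KS.f1 := h2
    subst h1' h2'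
    obtain ⟨x, y, hq, hD⟩ := ha
    rcases h3 with ⟨h3, _⟩ | ⟨X', q1, h3, h4, h5⟩
    · cases h3
    have hX : (none : Gm T N) = X' := by
      have : some (none : Gm T N) = some X' := h3
      injection this
    subst hX
    have h5' : q' = q1 ++ [] := h5
    subst h5'
    subst hq
    cases y with
    | nil =>
      simp only [List.map_nil, List.nil_append, List.cons.injEq] at h4
      exact ⟨x, by rw [h4.2]; simp, by simpa using hD⟩
    | cons c y =>
      simp at h4
  | fb =>
    have h1' : k = KS.f1 := h1
    have h2' : k' = KS.kf := h2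
    subst h1' h2'
    obtain ⟨x, hq, hD⟩ := ha
    rcases h3 with ⟨h3, _⟩ | ⟨X', q1, h3, h4, h5⟩
    · cases h3
    have hX : (some (Symbol.nonterminal S) : Gm T N) = X' := by
      have : some (some (Symbol.nonterminal S) : Gm T N) = some X' := h3
      injection this
    subst hX
    have h5' : q' = q1 ++ [] := h5
    subst h5'
    subst hq
    cases x with
    | nil => simp at h4
    | cons c x =>
      simp only [List.map_cons, List.cons.injEq, Option.some.injEq] at h4
      obtain ⟨rfl, h4⟩ := h4
      exact ⟨x, by rw [h4]; simp, hD⟩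

theorem derives_of_acc {w : List T}
    (h : (qm P S).Acc (fun t => (some (Symbol.terminal t) : Gm T N)) [none] w) :
    ReflTransGen (Step0 P) [Symbol.nonterminal S] (w.map Symbol.terminal) := by
  have h0 : InvQ P S w (KS.main,
      (w.map fun t => (some (Symbol.terminal t) : Gm T N)).reverse ++ [none]) := by
    refine ⟨[], (w.map Symbol.terminal).reverse, ?_, ?_⟩
    · simp [Function.comp_def]
    · simpa using (ReflTransGen.refl :
        ReflTransGen (Step0 P) (w.map Symbol.terminal) (w.map Symbol.terminal))
  have h1 : ∀ {a b : KS P × List (Gm T N)}, ReflTransGen (qm P S).Step a b → InvQ P S w a →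
      InvQ P S w b := by
    intro a b hab ha
    induction hab with
    | refl => exact ha
    | tail _ hs ih => exact invQ_step P S ih hs
  obtain ⟨x, hx, hD⟩ := h1 h h0
  have hx' : x = [] := by
    cases x with
    | nil => rfl
    | cons c x => simp at hx
  subst hx'
  simpa using hD

theorem acc_iff (w : List T) :
    (qm P S).Acc (fun t => (some (Symbol.terminal t) : Gm T N)) [none] w ↔
    ReflTransGen (Step0 P) [Symbol.nonterminal S] (w.map Symbol.terminal) :=
  ⟨derives_of_acc P S, acc_of_derives P S⟩

instance [Finite T] [Finite N] : Finite (Symbol T N) := by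
  have : Function.Surjective (fun x : T ⊕ N => (match x with
      | .inl t => Symbol.terminal t
      | .inr n => Symbol.nonterminal n : Symbol T N)) := by
    intro s
    cases s with
    | terminal t => exact ⟨.inl t, rfl⟩
    | nonterminal n => exact ⟨.inr n, rfl⟩
  exact Finite.of_surjective _ this

instance : Finite (KS P) := by
  have : Function.Surjective (fun x : Fin 3 ⊕ (Σ r : Fin P.length, Fin ((vr P r).length + 1)) =>
      (match x with
      | .inl 0 => KS.main
      | .inl 1 => KS.f1
      | .inl 2 => KS.kf
      | .inr ⟨r, i⟩ => KS.pop r i : KS P)) := by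
    intro s
    cases s with
    | main => exact ⟨.inl 0, rfl⟩
    | f1 => exact ⟨.inl 1, rfl⟩
    | kf => exact ⟨.inl 2, rfl⟩
    | pop r i => exact ⟨.inr ⟨r, i⟩, rfl⟩
  exact Finite.of_surjective _ this

instance [Finite T] [Finite N] : Finite (TI P) := by
  have : Function.Surjective (fun x : (Gm T N) ⊕ (Fin P.length) ⊕
      (Σ r : Fin P.length, Fin (vr P r).length) ⊕ (Fin P.length) ⊕ Bool =>
      (match x with
      | .inl X => TI.rot X
      | .inr (.inl r) => TI.enter r
      | .inr (.inr (.inl ⟨r, i⟩)) => TI.step r i
      | .inr (.inr (.inr (.inl r))) => TI.leave r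
      | .inr (.inr (.inr (.inr true))) => TI.fa
      | .inr (.inr (.inr (.inr false))) => TI.fb : TI P)) := by
    intro s
    cases s with
    | rot X => exact ⟨.inl X, rfl⟩
    | enter r => exact ⟨.inr (.inl r), rfl⟩
    | step r i => exact ⟨.inr (.inr (.inl ⟨r, i⟩)), rfl⟩
    | leave r => exact ⟨.inr (.inr (.inr (.inl r))), rfl⟩
    | fa => exact ⟨.inr (.inr (.inr (.inr true))), rfl⟩
    | fb => exact ⟨.inr (.inr (.inr (.inr false))), rfl⟩
  exact Finite.of_surjective _ this

end Pool.Agent.Q230.KM
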