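import Pool.Agent.Q230.KM.Sound
import Pool.Agent.Q230.KM.Re
import Pool.Agent.S15649

set_option autoImplicit false

/-!
# Left random context grammars generate all recursively enumerable languages
-/

namespace Pool.Agent.Q230.KM

open Relation

section
variable {Γ T : Type} [Finite Γ] [Finite T] (M : QM Γ) [Finite M.K] [Finite M.I]
  (inp : T → Γ) (e : List Γ)

instance {K : Type} [Finite K] : Finite (NG Γ K) := by
  have : Function.Surjective (fun x : Bool ⊕ Γ ⊕ Γ ⊕ Γ ⊕ K ⊕ K =>
      (match x with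
      | .inl false => NG.st
      | .inl true => NG.A
      | .inr (.inl X) => NG.p X
      | .inr (.inr (.inl X)) => NG.h X
      | .inr (.inr (.inr (.inl X))) => NG.d X
      | .inr (.inr (.inr (.inr (.inl k)))) => NG.Q k
      | .inr (.inr (.inr (.inr (.inr k)))) => NG.Q' k : NG Γ K)) := by
    intro s
    cases s with
    | st => exact ⟨.inl false, rfl⟩
    | A => exact ⟨.inl true, rfl⟩
    | p X => exact ⟨.inr (.inl X), rfl⟩
    | h X => exact ⟨.inr (.inr (.inl X)), rfl⟩
    | d X => exact ⟨.inr (.inr (.inr (.inl X))), rfl⟩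
    | Q k => exact ⟨.inr (.inr (.inr (.inr (.inl k)))), rfl⟩
    | Q' k => exact ⟨.inr (.inr (.inr (.inr (.inr k)))), rfl⟩
  exact Finite.of_surjective _ this

instance {K I : Type} [Finite K] [Finite I] : Finite (RI Γ K I T) := by
  have : Function.Surjective (fun x : Fin 3 ⊕ T ⊕ Γ ⊕ (Γ × K) ⊕ (Γ × K) ⊕ I ⊕ K =>
      (match x with
      | .inl 0 => RI.start
      | .inl 1 => RI.stop
      | .inl 2 => RI.fin
      | .inr (.inl t) => RI.gen t
      | .inr (.inr (.inl X)) => RI.mark X
      | .inr (.inr (.inr (.inl (X, k)))) => RI.mark2 X k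
      | .inr (.inr (.inr (.inr (.inl (X, k))))) => RI.del X k
      | .inr (.inr (.inr (.inr (.inr (.inl i))))) => RI.tr i
      | .inr (.inr (.inr (.inr (.inr (.inr k))))) => RI.back k : RI Γ K I T)) := by
    intro s
    cases s with
    | start => exact ⟨.inl 0, rfl⟩
    | stop => exact ⟨.inl 1, rfl⟩
    | fin => exact ⟨.inl 2, rfl⟩
    | gen t => exact ⟨.inr (.inl t), rfl⟩
    | mark X => exact ⟨.inr (.inr (.inl X)), rfl⟩
    | mark2 X k => exact ⟨.inr (.inr (.inr (.inl (X, k)))), rfl⟩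
    | del X k => exact ⟨.inr (.inr (.inr (.inr (.inl (X, k))))), rfl⟩
    | tr i => exact ⟨.inr (.inr (.inr (.inr (.inr (.inl i))))), rfl⟩
    | back k => exact ⟨.inr (.inr (.inr (.inr (.inr (.inr k))))), rfl⟩
  exact Finite.of_surjective _ this

/-- the rule with the name `i` -/
noncomputable def mkRule (i : RI Γ M.K M.I T) : Rule T (NG Γ M.K) :=
  (lhs M i, rhs M inp e i, (Set.toFinite (U M i)).toFinset, (Set.toFinite (W M i)).toFinset)

/-- left rules -/
noncomputable def gL : Finset (Rule T (NG Γ M.K)) :=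
  (Set.finite_range fun i : {i : RI Γ M.K M.I T // side M i = false} =>
    mkRule M inp e i.1).toFinset

/-- right rules -/
noncomputable def gR : Finset (Rule T (NG Γ M.K)) :=
  (Set.finite_range fun i : {i : RI Γ M.K M.I T // side M i = true} =>
    mkRule M inp e i.1).toFinset

theorem mem_gL {x : Rule T (NG Γ M.K)} : x ∈ gL M inp e ↔
    ∃ i : RI Γ M.K M.I T, side M i = false ∧ mkRule M inp e i = x := by
  simp [gL]

theorem mem_gR {x : Rule T (NG Γ M.K)} : x ∈ gR M inp e ↔
    ∃ i : RI Γ M.K M.I T, side M i = true ∧ mkRule M inp e i = x := by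
  simp [gR]

/-- the grammar which simulates the queue machine -/
noncomputable def gram : OSRC T where
  N := NG Γ M.K
  finN := inferInstance
  PL := gL M inp e
  PR := gR M inp e
  S := NG.st

/-- a step of a grammar given by its sets of rules -/
def PStep {T N : Type} (PL PR : Finset (Rule T N)) (α β : List (Symbol T N)) : Prop :=
  ∃ (u v : List (Symbol T N)) (A : N) (x : List (Symbol T N)) (U W : Finset N),
    α = u ++ [Symbol.nonterminal A] ++ v ∧ β = u ++ x ++ v ∧
    (((A, x, U, W) ∈ PL ∧ (∀ B ∈ U, Symbol.nonterminal B ∈ u) ∧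
        (∀ B ∈ W, Symbol.nonterminal B ∉ u)) ∨
     ((A, x, U, W) ∈ PR ∧ (∀ B ∈ U, Symbol.nonterminal B ∈ v) ∧
        (∀ B ∈ W, Symbol.nonterminal B ∉ v)))

theorem pstep_eq : PStep (gL M inp e) (gR M inp e) = GStep M inp e := by
  funext α β
  apply propext
  constructor
  · rintro ⟨u, v, B, x, U', W', rfl, rfl, ⟨h3, h4, h5⟩ | ⟨h3, h4, h5⟩⟩
    · obtain ⟨i, hi, h3⟩ := (mem_gL M inp e).1 h3
      simp only [mkRule, Prod.mk.injEq] at h3
      obtain ⟨rfl, rfl, rfl, rfl⟩ := h3
      refine ⟨i, u, v, by simp, rfl, Or.inl ⟨hi, ?_, ?_⟩⟩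
      · intro B hB; exact h4 B (by simpa using hB)
      · intro B hB; exact h5 B (by simpa using hB)
    · obtain ⟨i, hi, h3⟩ := (mem_gR M inp e).1 h3
      simp only [mkRule, Prod.mk.injEq] at h3
      obtain ⟨rfl, rfl, rfl, rfl⟩ := h3
      refine ⟨i, u, v, by simp, rfl, Or.inr ⟨hi, ?_, ?_⟩⟩
      · intro B hB; exact h4 B (by simpa using hB)
      · intro B hB; exact h5 B (by simpa using hB)
  · rintro ⟨i, u, v, rfl, rfl, ⟨h3, h4, h5⟩ | ⟨h3, h4, h5⟩⟩
    · refine ⟨u, v, lhs M i, rhs M inp e i, (Set.toFinite (U M i)).toFinset,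
        (Set.toFinite (W M i)).toFinset, by simp, rfl,
        Or.inl ⟨(mem_gL M inp e).2 ⟨i, h3, rfl⟩, ?_, ?_⟩⟩
      · intro B hB; exact h4 B (by simpa using hB)
      · intro B hB; exact h5 B (by simpa using hB)
    · refine ⟨u, v, lhs M i, rhs M inp e i, (Set.toFinite (U M i)).toFinset,
        (Set.toFinite (W M i)).toFinset, by simp, rfl,
        Or.inr ⟨(mem_gR M inp e).2 ⟨i, h3, rfl⟩, ?_, ?_⟩⟩
      · intro B hB; exact h4 B (by simpa using hB)
      · intro B hB; exact h5 B (by simpa using hB)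

theorem gram_step : (gram M inp e).Step = GStep M inp e := pstep_eq M inp e

theorem gram_lang : (gram M inp e).Lang = {w | M.Acc inp e w} := by
  ext w
  show ReflTransGen (gram M inp e).Step [Symbol.nonterminal NG.st] (w.map Symbol.terminal) ↔ _
  rw [gram_step]
  exact derives_iff M inp e w

end

/-- every recursively enumerable language is generated by a one-sided random context grammar -/
theorem exists_osrc {T : Type} [Finite T] {L : Set (List T)} (hL : IsRE L) :
    ∃ G : OSRC T, G.Lang = L := by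
  obtain ⟨N, hN, P, S, h⟩ := hL
  have : Finite (qm P S).K := inferInstanceAs (Finite (KS P))
  have : Finite (qm P S).I := inferInstanceAs (Finite (TI P))
  refine ⟨gram (qm P S) (fun t => (some (Symbol.terminal t) : Gm T N)) [none], ?_⟩
  rw [gram_lang]
  ext w
  exact (acc_iff P S w).trans (h w).symm

/-- every one-sided random context grammar has an equivalent left random context grammar -/
theorem exists_left {T : Type} [Finite T] (G : OSRC T) :
    ∃ G' : OSRC T, G'.PR = ∅ ∧ G'.Lang = G.Lang := by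
  classical
  obtain ⟨N', hN', S', PL', PR', h1, h2⟩ :=
    Pool.Agent.S15649.result T G.N inferInstance G.finN G.S G.PL G.PR
  refine ⟨⟨N', hN', PL' ∪ PR', ∅, S'⟩, rfl, ?_⟩
  ext w
  refine Iff.trans ?_ (h2 w).symm
  show ReflTransGen (OSRC.Step ⟨N', hN', PL' ∪ PR', ∅, S'⟩) [Symbol.nonterminal S']
    (w.map Symbol.terminal) ↔ _
  have e1 : OSRC.Step (T := T) ⟨N', hN', PL' ∪ PR', ∅, S'⟩ =
      (fun (α β : List (Symbol T N')) =>
            ∃ (u v : List (Symbol T N')) (A : N') (x : List (Symbol T N')) (U W : Finset N'),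
              α = u ++ [Symbol.nonterminal A] ++ v ∧ β = u ++ x ++ v ∧
              (((A, x, U, W) ∈ PL' ∧ (∀ B ∈ U, Symbol.nonterminal B ∈ u) ∧
                  (∀ B ∈ W, Symbol.nonterminal B ∉ u)) ∨
               ((A, x, U, W) ∈ PR' ∧ (∀ B ∈ U, Symbol.nonterminal B ∈ v) ∧
                  (∀ B ∈ W, Symbol.nonterminal B ∉ v)))) := by
    funext α β
    apply propext
    constructor
    · rintro ⟨u, v, A, x, U, W, rfl, rfl, ⟨h3, h4, h5⟩ | ⟨h3, _⟩⟩
      · rcases Finset.mem_union.1 h3 with h3 | h3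
        · exact ⟨u, v, A, x, U, W, rfl, rfl, Or.inl ⟨h3, h4, h5⟩⟩
        · obtain ⟨rfl, rfl⟩ := h1 A x U W h3
          exact ⟨u, v, A, x, ∅, ∅, rfl, rfl, Or.inr ⟨h3, by simp, by simp⟩⟩
      · exact absurd h3 (Finset.notMem_empty _)
    · rintro ⟨u, v, A, x, U, W, rfl, rfl, ⟨h3, h4, h5⟩ | ⟨h3, h4, h5⟩⟩
      · exact ⟨u, v, A, x, U, W, rfl, rfl, Or.inl ⟨Finset.mem_union_left _ h3, h4, h5⟩⟩
      · obtain ⟨rfl, rfl⟩ := h1 A x U W h3
        exact ⟨u, v, A, x, ∅, ∅, rfl, rfl, Or.inl ⟨Finset.mem_union_right _ h3, by simp,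
          by simp⟩⟩
  rw [e1]

/-- Left random context grammars generate all recursively enumerable languages. -/
theorem left_generates_re {T : Type} [Finite T] {L : Set (List T)} (hL : IsRE L) :
    ∃ G : OSRC T, G.PR = ∅ ∧ G.Lang = L := by
  obtain ⟨G, hG⟩ := exists_osrc hL
  obtain ⟨G', h1, h2⟩ := exists_left G
  exact ⟨G', h1, h2.trans hG⟩

end Pool.Agent.Q230.KM
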