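import Pool.Agent.Q230.KM.Defs

set_option autoImplicit false

/-!
# A one-sided random context grammar which simulates a queue machine
-/

namespace Pool.Agent.Q230.KM

open Relation

/-- nonterminals -/
inductive NG (Γ K : Type)
  | st | A
  | p (X : Γ) | h (X : Γ) | d (X : Γ)
  | Q (k : K) | Q' (k : K)

/-- names of the rules -/
inductive RI (Γ K I T : Type)
  | start | gen (t : T) | stop
  | mark (X : Γ) | mark2 (X : Γ) (k : K) | del (X : Γ) (k : K)
  | tr (i : I) | back (k : K) | fin

open NG RI

variable {Γ T : Type} (M : QM Γ) (inp : T → Γ) (e : List Γ)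

/-- nonterminal as a symbol -/
abbrev ν {Γ K : Type} (T : Type) (B : NG Γ K) : Symbol T (NG Γ K) := Symbol.nonterminal B

/-- a plain word of queue symbols -/
def pw {Γ K : Type} (T : Type) (q : List Γ) : List (Symbol T (NG Γ K)) := q.map fun X => ν T (p X)

/-- left hand sides -/
def lhs : RI Γ M.K M.I T → NG Γ M.K
  | start => st
  | gen _ => A
  | stop => A
  | mark X => p X
  | mark2 X _ => h X
  | del X _ => d X
  | tr i => Q (M.src i)
  | back k => Q' k
  | fin => Q M.kf

/-- right hand sides -/
def rhs : RI Γ M.K M.I T → List (Symbol T (NG Γ M.K))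
  | start => [ν T A] ++ pw T e ++ [ν T (Q M.k0)]
  | gen t => [Symbol.terminal t, ν T A, ν T (p (inp t))]
  | stop => []
  | mark X => [ν T (h X)]
  | mark2 X _ => [ν T (d X)]
  | del _ _ => []
  | tr i => pw T (M.push i) ++
      [ν T (match M.pop i with | none => Q (M.dst i) | some _ => Q' (M.dst i))]
  | back k => [ν T (Q k)]
  | fin => []

/-- `true`: right rule -/
def side : RI Γ M.K M.I T → Bool
  | mark2 _ _ => true
  | del _ _ => true
  | _ => false

/-- permitting context -/
def U : RI Γ M.K M.I T → Set (NG Γ M.K)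
  | mark2 _ k => {Q k}
  | del _ k => {Q' k}
  | tr i => {B | ∃ X, M.pop i = some X ∧ B = d X}
  | _ => ∅

/-- forbidding context -/
def W : RI Γ M.K M.I T → Set (NG Γ M.K)
  | mark _ => {B | B = A ∨ ∃ X, B = p X ∨ B = h X ∨ B = d X}
  | tr _ => {A}
  | back _ => {B | ∃ X, B = d X}
  | fin => {B | B = A ∨ ∃ X, B = p X ∨ B = h X ∨ B = d X}
  | _ => ∅

/-- context condition -/
def Ctx (i : RI Γ M.K M.I T) (u v : List (Symbol T (NG Γ M.K))) : Prop :=
  (side M i = false ∧ (∀ B ∈ U M i, ν T B ∈ u) ∧ (∀ B ∈ W M i, ν T B ∉ u)) ∨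
  (side M i = true ∧ (∀ B ∈ U M i, ν T B ∈ v) ∧ (∀ B ∈ W M i, ν T B ∉ v))

/-- one derivation step -/
def GStep (α β : List (Symbol T (NG Γ M.K))) : Prop :=
  ∃ (i : RI Γ M.K M.I T) (u v : List (Symbol T (NG Γ M.K))),
    α = u ++ ν T (lhs M i) :: v ∧ β = u ++ rhs M inp e i ++ v ∧ Ctx M i u v

theorem GStep.mk' (i : RI Γ M.K M.I T) (u v : List (Symbol T (NG Γ M.K))) (h : Ctx M i u v) :
    GStep M inp e (u ++ ν T (lhs M i) :: v) (u ++ rhs M inp e i ++ v) :=
  ⟨i, u, v, rfl, rfl, h⟩

/-- terminal words -/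
def tw {T N : Type} (w : List T) : List (Symbol T N) := w.map Symbol.terminal

theorem mem_tw {w : List T} {B : NG Γ M.K} : ¬ ν T B ∈ (tw w : List (Symbol T (NG Γ M.K))) := by
  intro h
  obtain ⟨t, _, h⟩ := List.mem_map.1 h
  cases h

theorem mem_pw {q : List Γ} {B : NG Γ M.K} :
    ν T B ∈ (pw T q : List (Symbol T (NG Γ M.K))) ↔ ∃ X ∈ q, B = p X := by
  unfold pw
  rw [List.mem_map]
  constructor
  · rintro ⟨X, hX, h⟩
    exact ⟨X, hX, by injection h with h; exact h.symm⟩
  · rintro ⟨X, hX, rfl⟩
    exact ⟨X, hX, rfl⟩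

theorem pw_append (q q' : List Γ) :
    (pw T (q ++ q') : List (Symbol T (NG Γ M.K))) = pw T q ++ pw T q' := by
  simp [pw]

theorem tw_append (q q' : List T) :
    (tw (q ++ q') : List (Symbol T (NG Γ M.K))) = tw q ++ tw q' := by
  simp [tw]

/-! ### Completeness -/

theorem gen_steps (w : List T) :
    ReflTransGen (GStep M inp e) [ν T st]
      (tw w ++ ν T A :: (pw T ((w.map inp).reverse ++ e) ++ [ν T (Q M.k0)])) := by
  induction w using List.reverseRecOn with
  | nil =>
    refine ReflTransGen.single ?_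
    have := GStep.mk' M inp e start [] [] (Or.inl ⟨rfl, by intro B hB; exact hB.elim, by
      intro B hB; exact hB.elim⟩)
    simpa [lhs, rhs, tw] using this
  | append_singleton w t ih =>
    refine ih.tail ?_
    have := GStep.mk' M inp e (gen t) (tw w) (pw T ((w.map inp).reverse ++ e) ++ [ν T (Q M.k0)])
      (Or.inl ⟨rfl, by intro B hB; exact hB.elim, by intro B hB; exact hB.elim⟩)
    simpa [lhs, rhs, tw, pw] using this

/-- the sentential form of a configuration -/
def sf (w : List T) (c : M.K × List Γ) : List (Symbol T (NG Γ M.K)) :=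
  tw w ++ (pw T c.2 ++ [ν T (Q c.1)])

theorem stop_step (w : List T) (q : List Γ) (k : M.K) :
    GStep M inp e (tw w ++ ν T A :: (pw T q ++ [ν T (Q k)])) (sf M w (k, q)) := by
  have := GStep.mk' M inp e stop (tw w) (pw T q ++ [ν T (Q k)])
    (Or.inl ⟨rfl, by intro B hB; exact hB.elim, by intro B hB; exact hB.elim⟩)
  simpa [lhs, rhs, sf] using this

theorem sim_step (w : List T) (a b : M.K × List Γ) (h : M.Step a b) :
    ReflTransGen (GStep M inp e) (sf M w a) (sf M w b) := by
  obtain ⟨k, q⟩ := a
  obtain ⟨k', q'⟩ := b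
  obtain ⟨i, h1, h2, h3⟩ := h
  dsimp only at h1 h2 h3
  subst h1 h2
  rcases h3 with ⟨hp, rfl⟩ | ⟨X, q1, hp, rfl, rfl⟩
  · refine ReflTransGen.single ?_
    have := GStep.mk' M inp e (tr i) (tw w ++ pw T q) [] (Or.inl ⟨rfl, by
      rintro B ⟨X, hX, _⟩
      rw [hp] at hX
      exact absurd hX (by simp), by
      intro B hB hmem
      rcases List.mem_append.1 hmem with h | h
      · exact mem_tw M h
      · obtain ⟨X, _, rfl⟩ := (mem_pw M).1 h
        cases hB⟩)
    simp only [lhs, rhs, hp] at this
    simpa [sf, pw_append] using this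
  · -- mark the head
    have s1 : GStep M inp e (sf M w (M.src i, X :: q1))
        (tw w ++ ν T (h X) :: (pw T q1 ++ [ν T (Q (M.src i))])) := by
      have := GStep.mk' M inp e (mark X) (tw w) (pw T q1 ++ [ν T (Q (M.src i))]) (Or.inl ⟨rfl, by
        intro B hB; exact hB.elim, by intro B _ hmem; exact mem_tw M hmem⟩)
      simpa [lhs, rhs, sf, pw] using this
    have s2 : GStep M inp e (tw w ++ ν T (h X) :: (pw T q1 ++ [ν T (Q (M.src i))]))
        (tw w ++ ν T (d X) :: (pw T q1 ++ [ν T (Q (M.src i))])) := by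
      have := GStep.mk' M inp e (mark2 X (M.src i)) (tw w) (pw T q1 ++ [ν T (Q (M.src i))])
        (Or.inr ⟨rfl, by
          intro B hB
          have hB' : B = Q (M.src i) := hB
          rw [hB']
          simp, by intro B hB; exact hB.elim⟩)
      simpa [lhs, rhs] using this
    have s3 : GStep M inp e (tw w ++ ν T (d X) :: (pw T q1 ++ [ν T (Q (M.src i))]))
        (tw w ++ ν T (d X) :: (pw T (q1 ++ M.push i) ++ [ν T (Q' (M.dst i))])) := by
      have := GStep.mk' M inp e (tr i) (tw w ++ ν T (d X) :: pw T q1) [] (Or.inl ⟨rfl, by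
        rintro B ⟨Y, hY, rfl⟩
        rw [hp] at hY
        cases hY
        simp, by
        intro B hB hmem
        have hB' : B = A := hB
        subst hB'
        rcases List.mem_append.1 hmem with h | h
        · exact mem_tw M h
        · rcases List.mem_cons.1 h with h | h
          · cases h
          · obtain ⟨Y, _, h⟩ := (mem_pw M).1 h
            cases h⟩)
      simp only [lhs, rhs, hp] at this
      simpa [pw_append] using this
    have s4 : GStep M inp e (tw w ++ ν T (d X) :: (pw T (q1 ++ M.push i) ++ [ν T (Q' (M.dst i))]))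
        (tw w ++ (pw T (q1 ++ M.push i) ++ [ν T (Q' (M.dst i))])) := by
      have := GStep.mk' M inp e (del X (M.dst i)) (tw w)
        (pw T (q1 ++ M.push i) ++ [ν T (Q' (M.dst i))])
        (Or.inr ⟨rfl, by
          intro B hB
          have hB' : B = Q' (M.dst i) := hB
          rw [hB']
          simp, by intro B hB; exact hB.elim⟩)
      simpa [lhs, rhs] using this
    have s5 : GStep M inp e (tw w ++ (pw T (q1 ++ M.push i) ++ [ν T (Q' (M.dst i))]))
        (sf M w (M.dst i, q1 ++ M.push i)) := by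
      have := GStep.mk' M inp e (back (M.dst i)) (tw w ++ pw T (q1 ++ M.push i)) [] (Or.inl ⟨rfl, by
        intro B hB; exact hB.elim, by
        rintro B ⟨Y, rfl⟩ hmem
        rcases List.mem_append.1 hmem with h | h
        · exact mem_tw M h
        · obtain ⟨Z, _, h⟩ := (mem_pw M).1 h
          cases h⟩)
      simpa [lhs, rhs, sf] using this
    exact (((((ReflTransGen.single s1).tail s2).tail s3).tail s4).tail s5)

theorem fin_step (w : List T) : GStep M inp e (sf M w (M.kf, [])) (tw w) := by
  have := GStep.mk' M inp e fin (tw w) [] (Or.inl ⟨rfl, by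
    intro B hB; exact hB.elim, by intro B _ hmem; exact mem_tw M hmem⟩)
  simpa [lhs, rhs, sf, pw] using this

theorem complete {w : List T} (h : M.Acc inp e w) :
    ReflTransGen (GStep M inp e) [ν T st] (tw w) := by
  have h2 : ∀ {a b : M.K × List Γ}, ReflTransGen M.Step a b →
      ReflTransGen (GStep M inp e) (sf M w a) (sf M w b) := by
    intro a b hab
    induction hab with
    | refl => exact ReflTransGen.refl
    | tail _ hs ih => exact ih.trans (sim_step M inp e w _ _ hs)
  have h1 : ReflTransGen (GStep M inp e) (sf M w (M.k0, (w.map inp).reverse ++ e))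
      (sf M w (M.kf, [])) := h2 h
  exact (((gen_steps M inp e w).tail (stop_step M inp e w _ _)).trans h1).tail
    (fin_step M inp e w)

end Pool.Agent.Q230.KM
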