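import Pool.Agent.Q230.KM.Sim

set_option autoImplicit false

/-!
# Soundness of the simulation
-/

namespace Pool.Agent.Q230.KM

open Relation NG RI

variable {Γ T : Type} (M : QM Γ) (inp : T → Γ) (e : List Γ)

/-- decorated head of the queue -/
def pr {Γ K : Type} (T : Type) : Option (Bool × Γ) → List (Symbol T (NG Γ K))
  | none => []
  | some (false, X) => [ν T (h X)]
  | some (true, X) => [ν T (d X)]

/-- the queue, if the symbol `d X` has not yet been read -/
def rep {Γ : Type} : Option (Bool × Γ) → List Γ → List Γ
  | none, q => q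
  | some (_, X), q => X :: q

/-- the queue, if the symbol `d X` has been read -/
def rep' {Γ : Type} : Option (Bool × Γ) → List Γ → List Γ
  | none, q => q
  | some (false, X), q => X :: q
  | some (true, _), q => q

/-- reachable configurations -/
def Rch (w : List T) (c : M.K × List Γ) : Prop :=
  ReflTransGen M.Step (M.k0, (w.map inp).reverse ++ e) c

/-- the invariant -/
inductive Inv : List (Symbol T (NG Γ M.K)) → Prop
  | i0 : Inv [ν T st]
  | i1 (w : List T) : Inv (tw w ++ ν T A :: (pw T ((w.map inp).reverse ++ e) ++ [ν T (Q M.k0)]))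
  | i2 (w : List T) (o : Option (Bool × Γ)) (q : List Γ) (k : M.K) (h : Rch M inp e w (k, rep o q)) :
      Inv (tw w ++ (pr T o ++ (pw T q ++ [ν T (Q k)])))
  | i3 (w : List T) (o : Option (Bool × Γ)) (q : List Γ) (k : M.K) (h : Rch M inp e w (k, rep' o q)) :
      Inv (tw w ++ (pr T o ++ (pw T q ++ [ν T (Q' k)])))
  | i4 (w : List T) (h : M.Acc inp e w) : Inv (tw w)

theorem split_tw {w : List T} : ∀ {u v R : List (Symbol T (NG Γ M.K))} {B : NG Γ M.K},
    tw w ++ R = u ++ ν T B :: v → ∃ u', u = tw w ++ u' ∧ R = u' ++ ν T B :: v := by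
  induction w with
  | nil =>
    intro u v R B h
    exact ⟨u, by simp [tw], by simpa [tw] using h⟩
  | cons t w ih =>
    intro u v R B h
    cases u with
    | nil =>
      simp [tw] at h
    | cons x u =>
      simp only [tw, List.map_cons, List.cons_append, List.cons.injEq] at h
      obtain ⟨u', h1, h2⟩ := ih h.2
      exact ⟨u', by simp [tw, ← h.1, h1], h2⟩

theorem cases_pw {c : NG Γ M.K} {q : List Γ} : ∀ {u v : List (Symbol T (NG Γ M.K))} {B : NG Γ M.K},
    pw T q ++ [ν T c] = u ++ ν T B :: v →
    (B = c ∧ u = pw T q ∧ v = []) ∨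
    ∃ q1 X q2, q = q1 ++ X :: q2 ∧ B = p X ∧ u = pw T q1 ∧ v = pw T q2 ++ [ν T c] := by
  induction q with
  | nil =>
    intro u v B h
    cases u with
    | nil =>
      simp only [pw, List.map_nil, List.nil_append, List.cons.injEq, Symbol.nonterminal.injEq] at h
      exact Or.inl ⟨h.1.symm, rfl, h.2.symm⟩
    | cons x u =>
      simp [pw] at h
  | cons Y q ih =>
    intro u v B h
    cases u with
    | nil =>
      simp only [pw, List.map_cons, List.cons_append, List.nil_append, List.cons.injEq,
        Symbol.nonterminal.injEq] at h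
      exact Or.inr ⟨[], Y, q, rfl, h.1.symm, rfl, h.2.symm⟩
    | cons x u =>
      simp only [pw, List.map_cons, List.cons_append, List.cons.injEq] at h
      rcases ih h.2 with ⟨h1, h2, h3⟩ | ⟨q1, X, q2, h1, h2, h3, h4⟩
      · exact Or.inl ⟨h1, by rw [h2, ← h.1]; rfl, h3⟩
      · refine Or.inr ⟨Y :: q1, X, q2, by rw [h1]; rfl, h2, by rw [h3, ← h.1]; rfl, h4⟩

theorem cases_R {o : Option (Bool × Γ)} {c : NG Γ M.K} {q : List Γ}
    {u v : List (Symbol T (NG Γ M.K))} {B : NG Γ M.K}
    (h : pr T o ++ (pw T q ++ [ν T c]) = u ++ ν T B :: v) :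
    (B = c ∧ u = pr T o ++ pw T q ∧ v = []) ∨
    (∃ X, o = some (false, X) ∧ B = NG.h X ∧ u = [] ∧ v = pw T q ++ [ν T c]) ∨
    (∃ X, o = some (true, X) ∧ B = NG.d X ∧ u = [] ∧ v = pw T q ++ [ν T c]) ∨
    ∃ q1 X q2, q = q1 ++ X :: q2 ∧ B = p X ∧ u = pr T o ++ pw T q1 ∧ v = pw T q2 ++ [ν T c] := by
  rcases o with _ | ⟨b, X⟩
  · rcases cases_pw M h with h1 | ⟨q1, X, q2, h1⟩
    · exact Or.inl h1
    · exact Or.inr (Or.inr (Or.inr ⟨q1, X, q2, h1⟩))
  · cases b
    · cases u with
      | nil =>
        simp only [pr, List.cons_append, List.nil_append, List.cons.injEq,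
          Symbol.nonterminal.injEq] at h
        exact Or.inr (Or.inl ⟨X, rfl, h.1.symm, rfl, h.2.symm⟩)
      | cons x u =>
        simp only [pr, List.cons_append, List.nil_append, List.cons.injEq] at h
        rcases cases_pw M h.2 with ⟨h1, h2, h3⟩ | ⟨q1, Y, q2, h1, h2, h3, h4⟩
        · exact Or.inl ⟨h1, by rw [h2, ← h.1]; rfl, h3⟩
        · exact Or.inr (Or.inr (Or.inr ⟨q1, Y, q2, h1, h2, by rw [h3, ← h.1]; rfl, h4⟩))
    · cases u with
      | nil =>
        simp only [pr, List.cons_append, List.nil_append, List.cons.injEq,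
          Symbol.nonterminal.injEq] at h
        exact Or.inr (Or.inr (Or.inl ⟨X, rfl, h.1.symm, rfl, h.2.symm⟩))
      | cons x u =>
        simp only [pr, List.cons_append, List.nil_append, List.cons.injEq] at h
        rcases cases_pw M h.2 with ⟨h1, h2, h3⟩ | ⟨q1, Y, q2, h1, h2, h3, h4⟩
        · exact Or.inl ⟨h1, by rw [h2, ← h.1]; rfl, h3⟩
        · exact Or.inr (Or.inr (Or.inr ⟨q1, Y, q2, h1, h2, by rw [h3, ← h.1]; rfl, h4⟩))

/-- if no data symbol occurs then the queue is empty -/
theorem no_data {w : List T} {o : Option (Bool × Γ)} {q : List Γ}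
    (h : ∀ B ∈ ({B | B = A ∨ ∃ X, B = p X ∨ B = NG.h X ∨ B = d X} : Set (NG Γ M.K)),
      ν T B ∉ (tw w ++ (pr T o ++ pw T q) : List (Symbol T (NG Γ M.K)))) : o = none ∧ q = [] := by
  constructor
  · rcases o with _ | ⟨b, X⟩
    · rfl
    · exfalso
      cases b
      · exact h (NG.h X) (Or.inr ⟨X, Or.inr (Or.inl rfl)⟩) (by simp [pr])
      · exact h (d X) (Or.inr ⟨X, Or.inr (Or.inr rfl)⟩) (by simp [pr])
  · cases q with
    | nil => rfl
    | cons X q =>
      exact absurd (by simp [pw]) (h (p X) (Or.inr ⟨X, Or.inl rfl⟩))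

theorem Rch.step {w : List T} {a b : M.K × List Γ} (h : Rch M inp e w a) (hs : M.Step a b) :
    Rch M inp e w b := ReflTransGen.tail h hs

theorem inv_step {s s' : List (Symbol T (NG Γ M.K))} (hI : Inv M inp e s)
    (hst : GStep M inp e s s') : Inv M inp e s' := by
  obtain ⟨i, u, v, hs, rfl, hctx⟩ := hst
  cases hI with
  | i0 =>
    cases u with
    | nil =>
      simp only [List.nil_append, List.cons.injEq, Symbol.nonterminal.injEq] at hs
      obtain ⟨h1, rfl⟩ := hs
      cases i <;> simp only [lhs, reduceCtorEq] at h1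
      have := Inv.i1 (M := M) (inp := inp) (e := e) ([] : List T)
      simpa [rhs, tw, pw] using this
    | cons x u => simp at hs
  | i1 w =>
    obtain ⟨u', rfl, h2⟩ := split_tw M hs
    cases u' with
    | nil =>
      simp only [List.nil_append, List.cons.injEq, Symbol.nonterminal.injEq] at h2
      obtain ⟨h1, rfl⟩ := h2
      cases i with
      | gen t =>
        have := Inv.i1 (M := M) (inp := inp) (e := e) (w ++ [t])
        simpa [rhs, tw, pw] using this
      | stop =>
        have := Inv.i2 (M := M) (inp := inp) (e := e) w none ((w.map inp).reverse ++ e) M.k0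
          ReflTransGen.refl
        simpa [rhs, pr, pw] using this
      | _ => simp [lhs] at h1
    | cons x u' =>
      simp only [List.cons_append, List.cons.injEq] at h2
      obtain ⟨rfl, h2⟩ := h2
      exfalso
      rcases cases_pw M h2 with ⟨h3, _, _⟩ | ⟨q1, X, q2, _, h3, _, _⟩
      · cases i with
        | tr i =>
          rcases hctx with ⟨_, _, h5⟩ | ⟨h5, _⟩
          · exact h5 A rfl (by simp)
          · cases h5
        | fin =>
          rcases hctx with ⟨_, _, h5⟩ | ⟨h5, _⟩
          · exact h5 A (Or.inl rfl) (by simp)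
          · cases h5
        | _ => simp [lhs] at h3
      · cases i with
        | mark Y =>
          rcases hctx with ⟨_, _, h5⟩ | ⟨h5, _⟩
          · exact h5 A (Or.inl rfl) (by simp)
          · cases h5
        | _ => simp [lhs] at h3
  | i2 w o q k hr =>
    obtain ⟨u', rfl, h2⟩ := split_tw M hs
    rcases cases_R M h2 with ⟨h3, rfl, rfl⟩ | ⟨X, rfl, h3, rfl, rfl⟩ | ⟨X, rfl, h3, rfl, rfl⟩ |
      ⟨q1, X, q2, rfl, h3, rfl, rfl⟩
    · cases i with
      | tr i =>
        have hk : M.src i = k := by simpa [lhs] using h3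
        subst hk
        rcases hctx with ⟨_, h4, _⟩ | ⟨h5, _⟩
        swap
        · cases h5
        cases hp : M.pop i with
        | none =>
          have hr' : Rch M inp e w (M.dst i, rep o (q ++ M.push i)) := by
            refine hr.step M inp e ⟨i, rfl, rfl, Or.inl ⟨hp, ?_⟩⟩
            rcases o with _ | ⟨b, X⟩ <;> simp [rep]
          have := Inv.i2 (M := M) (inp := inp) (e := e) w o (q ++ M.push i) (M.dst i) hr'
          simpa [rhs, hp, pw_append] using this
        | some X =>
          have h6 : ν T (d X) ∈ (tw w ++ (pr T o ++ pw T q) : List (Symbol T (NG Γ M.K))) :=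
            h4 (d X) ⟨X, hp, rfl⟩
          have h7 : o = some (true, X) := by
            rcases List.mem_append.1 h6 with h6 | h6
            · exact absurd h6 (mem_tw M)
            rcases List.mem_append.1 h6 with h6 | h6
            · rcases o with _ | ⟨b, Y⟩
              · simp [pr] at h6
              · cases b <;> simp [pr] at h6
                rw [h6]
            · obtain ⟨Y, _, h8⟩ := (mem_pw M).1 h6
              cases h8
          subst h7
          have hr' : Rch M inp e w (M.dst i, rep' (some (true, X)) (q ++ M.push i)) := by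
            refine hr.step M inp e ⟨i, rfl, rfl, Or.inr ⟨X, q, hp, rfl, rfl⟩⟩
          have := Inv.i3 (M := M) (inp := inp) (e := e) w (some (true, X)) (q ++ M.push i)
            (M.dst i) hr'
          simpa [rhs, hp, pw_append] using this
      | fin =>
        have hk : M.kf = k := by simpa [lhs] using h3
        subst hk
        rcases hctx with ⟨_, _, h5⟩ | ⟨h5, _⟩
        swap
        · cases h5
        obtain ⟨rfl, rfl⟩ := no_data M h5
        have := Inv.i4 (M := M) (inp := inp) (e := e) w hr
        simpa [rhs, pr, pw] using this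
      | _ => simp [lhs] at h3
    · cases i with
      | mark2 Y k' =>
        have hY : Y = X := by simpa [lhs] using h3
        subst hY
        have := Inv.i2 (M := M) (inp := inp) (e := e) w (some (true, Y)) q k hr
        simpa [rhs, pr] using this
      | _ => simp [lhs] at h3
    · cases i with
      | del Y k' =>
        exfalso
        rcases hctx with ⟨h5, _⟩ | ⟨_, h5, _⟩
        · cases h5
        have h6 := h5 (Q' k') rfl
        rcases List.mem_append.1 h6 with h6 | h6
        · obtain ⟨Y, _, h8⟩ := (mem_pw M).1 h6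
          cases h8
        · simp at h6
      | _ => simp [lhs] at h3
    · cases i with
      | mark Y =>
        have hY : Y = X := by simpa [lhs] using h3
        subst hY
        rcases hctx with ⟨_, _, h5⟩ | ⟨h5, _⟩
        swap
        · cases h5
        obtain ⟨rfl, rfl⟩ := no_data M h5
        have := Inv.i2 (M := M) (inp := inp) (e := e) w (some (false, Y)) q2 k hr
        simpa [rhs, pr, pw] using this
      | _ => simp [lhs] at h3
  | i3 w o q k hr =>
    obtain ⟨u', rfl, h2⟩ := split_tw M hs
    rcases cases_R M h2 with ⟨h3, rfl, rfl⟩ | ⟨X, rfl, h3, rfl, rfl⟩ | ⟨X, rfl, h3, rfl, rfl⟩ |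
      ⟨q1, X, q2, rfl, h3, rfl, rfl⟩
    · cases i with
      | back k' =>
        have hk : k' = k := by simpa [lhs] using h3
        subst hk
        rcases hctx with ⟨_, _, h5⟩ | ⟨h5, _⟩
        swap
        · cases h5
        have hr' : Rch M inp e w (k', rep o q) := by
          rcases o with _ | ⟨b, X⟩
          · exact hr
          · cases b
            · exact hr
            · exact absurd (by simp [pr]) (h5 (d X) ⟨X, rfl⟩)
        have := Inv.i2 (M := M) (inp := inp) (e := e) w o q k' hr'
        simpa [rhs] using this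
      | _ => simp [lhs] at h3
    · cases i with
      | mark2 Y k' =>
        exfalso
        rcases hctx with ⟨h5, _⟩ | ⟨_, h5, _⟩
        · cases h5
        have h6 := h5 (Q k') rfl
        rcases List.mem_append.1 h6 with h6 | h6
        · obtain ⟨Y, _, h8⟩ := (mem_pw M).1 h6
          cases h8
        · simp at h6
      | _ => simp [lhs] at h3
    · cases i with
      | del Y k' =>
        have := Inv.i3 (M := M) (inp := inp) (e := e) w none q k hr
        simpa [rhs, pr] using this
      | _ => simp [lhs] at h3
    · cases i with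
      | mark Y =>
        have hY : Y = X := by simpa [lhs] using h3
        subst hY
        rcases hctx with ⟨_, _, h5⟩ | ⟨h5, _⟩
        swap
        · cases h5
        obtain ⟨rfl, rfl⟩ := no_data M h5
        have := Inv.i3 (M := M) (inp := inp) (e := e) w (some (false, Y)) q2 k hr
        simpa [rhs, pr, pw] using this
      | _ => simp [lhs] at h3
  | i4 w ha =>
    exfalso
    have : ν T (lhs M i) ∈ (tw w : List (Symbol T (NG Γ M.K))) := by rw [hs]; simp
    exact mem_tw M this

theorem inv_steps {s : List (Symbol T (NG Γ M.K))}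
    (h : ReflTransGen (GStep M inp e) [ν T st] s) : Inv M inp e s := by
  induction h with
  | refl => exact Inv.i0
  | tail _ hs ih => exact inv_step M inp e ih hs

theorem sound {w : List T} (h : ReflTransGen (GStep M inp e) [ν T st] (tw w)) :
    M.Acc inp e w := by
  have hI := inv_steps M inp e h
  generalize hs : (tw w : List (Symbol T (NG Γ M.K))) = s at hI
  cases hI with
  | i0 =>
    have : ν T st ∈ (tw w : List (Symbol T (NG Γ M.K))) := by rw [hs]; simp
    exact absurd this (mem_tw M)
  | i1 w' =>
    have : ν T A ∈ (tw w : List (Symbol T (NG Γ M.K))) := by rw [hs]; simp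
    exact absurd this (mem_tw M)
  | i2 w' o q k hr =>
    have : ν T (Q k) ∈ (tw w : List (Symbol T (NG Γ M.K))) := by rw [hs]; simp
    exact absurd this (mem_tw M)
  | i3 w' o q k hr =>
    have : ν T (Q' k) ∈ (tw w : List (Symbol T (NG Γ M.K))) := by rw [hs]; simp
    exact absurd this (mem_tw M)
  | i4 w' ha =>
    have hw : w = w' := by
      unfold tw at hs
      exact (List.map_injective_iff.2 (fun a b h => by injection h)) hs
    rw [hw]; exact ha

theorem derives_iff (w : List T) :
    ReflTransGen (GStep M inp e) [ν T st] (tw w) ↔ M.Acc inp e w :=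
  ⟨sound M inp e, complete M inp e⟩

end Pool.Agent.Q230.KM
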